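import Pool.Agent.H12.Zono5

set_option autoImplicit false

namespace Pool.Agent.Results.MP_1c8ed6_co.Stars

theorem result :
    ∀ {V : Type} [Fintype V] [DecidableEq V] (G : SimpleGraph V) [DecidableRel G.Adj]
      {W : Type} [Fintype W] [DecidableEq W] (T : SimpleGraph W) [DecidableRel T.Adj],
      (∃ c : W, ∀ a b, T.Adj a b ↔ a ≠ b ∧ (a = c ∨ b = c)) →
      (∃ F : Fin T.edgeFinset.card → SimpleGraph V,
          (∀ i, F i ≤ G ∧ (F i).IsTree) ∧
          Pairwise (fun i j => Disjoint (F i) (F j))) →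
      T.edgeFinset.card ∣ G.edgeFinset.card →
      ∃ (n : ℕ) (H : Fin n → G.Subgraph),
        (∀ i, Nonempty (T ≃g (H i).coe)) ∧
        Pairwise (fun i j => Disjoint (H i).edgeSet (H j).edgeSet) ∧
        (∀ e ∈ G.edgeSet, ∃ i, e ∈ (H i).edgeSet) := by
  intro V _ _ G _ W _ _ T _ ⟨c, hc⟩ ⟨F, hF, hd⟩ hdvd
  exact Pool.Agent.H12.Zono.star_decomp G T c hc F hF hd hdvd

end Pool.Agent.Results.MP_1c8ed6_co.Stars
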